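import Pool.Agent.Q255.L2.StmM

/-!
# Project L2M (helper255), job BAL: balanced tuples of integers
-/

set_option autoImplicit false

namespace Pool.Agent.Q151.L2

open Finset
open Pool.Agent.Q255.L2
open Pool.Agent.Q152.QT (gm)
open scoped Classical

theorem gm_zero : gm 0 = 1 := by
  simp [gm]

theorem gm_one : gm 1 = 0 := by
  simp [gm]

theorem gm_add_two (k : ℕ) : gm (k + 2) = (k + 1) * gm k := by
  unfold gm
  by_cases h : Even k
  · have h2 : Even (k + 2) := by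
      rw [Nat.even_add]
      simp [h]
    rw [if_pos h2, if_pos h]
    rcases Nat.eq_zero_or_pos k with h0 | h0
    · subst h0
      simp
    · obtain ⟨n, rfl⟩ : ∃ n, k = n + 1 := ⟨k - 1, by omega⟩
      rw [show n + 1 + 2 - 1 = n + 2 by omega, Nat.add_sub_cancel, Nat.doubleFactorial_add_two]
  · have h2 : ¬ Even (k + 2) := by
      rw [Nat.even_add]
      simp [h]
    rw [if_neg h2, if_neg h, mul_zero]

theorem mem_Bx {X : ℕ} {m : ℤ} : m ∈ Bx X ↔ m ≠ 0 ∧ -(X : ℤ) ≤ m ∧ m ≤ X := by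
  unfold Bx
  rw [mem_erase, mem_Icc]

theorem neg_mem_Bx {X : ℕ} {m : ℤ} (h : m ∈ Bx X) : -m ∈ Bx X := by
  rw [mem_Bx] at h ⊢
  omega

/-- the number of the entries with the value `x` -/
theorem cnt_eq {n : ℕ} (m : Fin n → ℤ) (x : ℤ) :
    ((univ.filter fun i => m i = x).card : ℕ) = ∑ i, if m i = x then 1 else 0 := by
  rw [Finset.card_filter]

/-- two more entries -/
def ins {k : ℕ} (v : ℤ) (j : Fin (k + 1)) (w : ℤ) (m : Fin k → ℤ) : Fin (k + 2) → ℤ :=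
  Fin.cons v (j.insertNth w m : Fin (k + 1) → ℤ)

theorem ins_zero {k : ℕ} (v : ℤ) (j : Fin (k + 1)) (w : ℤ) (m : Fin k → ℤ) : ins v j w m 0 = v := rfl

theorem ins_succ {k : ℕ} (v : ℤ) (j : Fin (k + 1)) (w : ℤ) (m : Fin k → ℤ) (i : Fin (k + 1)) :
    ins v j w m i.succ = (j.insertNth w m : Fin (k + 1) → ℤ) i := rfl

theorem cnt_ins {k : ℕ} (v : ℤ) (j : Fin (k + 1)) (w : ℤ) (m : Fin k → ℤ) (x : ℤ) :
    (univ.filter fun i => ins v j w m i = x).card =
      (if v = x then 1 else 0) + ((if w = x then 1 else 0) + (univ.filter fun i => m i = x).card) := by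
  rw [cnt_eq, cnt_eq, Fin.sum_univ_succ, ins_zero, Fin.sum_univ_succAbove _ j]
  congr 2
  · rw [ins_succ, Fin.insertNth_apply_same]
  · refine Finset.sum_congr rfl fun i _ => ?_
    rw [ins_succ, Fin.insertNth_apply_succAbove]

theorem bal_ins {k : ℕ} (v : ℤ) (j : Fin (k + 1)) (m : Fin k → ℤ) :
    BalZ (ins v j (-v) m) ↔ BalZ m := by
  unfold BalZ
  refine forall_congr' fun x => ?_
  rw [cnt_ins, cnt_ins]
  have h1 : (if v = -x then 1 else 0 : ℕ) = if -v = x then 1 else 0 := by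
    by_cases h : v = -x
    · rw [if_pos h, if_pos (by omega)]
    · rw [if_neg h, if_neg (by omega)]
  have h2 : (if -v = -x then 1 else 0 : ℕ) = if v = x then 1 else 0 := by
    by_cases h : v = x
    · rw [if_pos (by omega), if_pos h]
    · rw [if_neg (by omega), if_neg h]
  rw [h1, h2]
  omega

theorem prod_ins {M : Type*} [CommMonoid M] {k : ℕ} (v : ℤ) (j : Fin (k + 1)) (w : ℤ) (m : Fin k → ℤ)
    (f : ℤ → M) : ∏ i, f (ins v j w m i) = f v * (f w * ∏ i, f (m i)) := by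
  rw [Fin.prod_univ_succ, ins_zero, Fin.prod_univ_succAbove _ j]
  congr 2
  · rw [ins_succ, Fin.insertNth_apply_same]
  · refine Finset.prod_congr rfl fun i _ => ?_
    rw [ins_succ, Fin.insertNth_apply_succAbove]

/-- the balanced tuples -/
noncomputable def BT (k X : ℕ) : Finset (Fin k → ℤ) :=
  (Fintype.piFinset fun _ : Fin k => Bx X).filter BalZ

theorem mem_BT {k X : ℕ} {m : Fin k → ℤ} : m ∈ BT k X ↔ (∀ i, m i ∈ Bx X) ∧ BalZ m := by
  unfold BT
  rw [mem_filter, Fintype.mem_piFinset]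

theorem ins_mem_BT {k X : ℕ} {v : ℤ} {j : Fin (k + 1)} {m : Fin k → ℤ} (hv : v ∈ Bx X)
    (hm : m ∈ BT k X) : ins v j (-v) m ∈ BT (k + 2) X := by
  rw [mem_BT] at hm ⊢
  refine ⟨fun i => ?_, (bal_ins v j m).2 hm.2⟩
  refine Fin.cases hv (fun i => ?_) i
  rw [ins_succ]
  rcases Fin.eq_self_or_eq_succAbove j i with h | ⟨l, h⟩
  · rw [h, Fin.insertNth_apply_same]
    exact neg_mem_Bx hv
  · rw [h, Fin.insertNth_apply_succAbove]
    exact hm.1 l

/-- the tuples with `m (j+1) = - m 0` -/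
theorem sum_pair {E : Type*} [AddCommMonoid E] (k X : ℕ) (j : Fin (k + 1)) (F : (Fin (k + 2) → ℤ) → E) :
    ∑ m ∈ (BT (k + 2) X).filter (fun m => m j.succ = -m 0), F m =
      ∑ p ∈ Bx X ×ˢ BT k X, F (ins p.1 j (-p.1) p.2) := by
  symm
  refine Finset.sum_bij' (fun p _ => ins p.1 j (-p.1) p.2)
    (fun m _ => (m 0, fun i => m (j.succAbove i).succ)) ?_ ?_ ?_ ?_ ?_
  · intro p hp
    rw [mem_product] at hp
    rw [mem_filter]
    refine ⟨ins_mem_BT hp.1 hp.2, ?_⟩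
    rw [ins_succ, Fin.insertNth_apply_same, ins_zero]
  · intro m hm
    rw [mem_filter] at hm
    obtain ⟨h1, h2⟩ := hm
    rw [mem_BT] at h1
    rw [mem_product, mem_BT]
    refine ⟨h1.1 0, fun i => h1.1 _, ?_⟩
    have h3 : ins (m 0) j (-(m 0)) (fun i => m (j.succAbove i).succ) = m := by
      funext i
      refine Fin.cases rfl (fun i => ?_) i
      rw [ins_succ]
      rcases Fin.eq_self_or_eq_succAbove j i with h | ⟨l, h⟩
      · rw [h, Fin.insertNth_apply_same, h2]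
      · rw [h, Fin.insertNth_apply_succAbove]
    have h4 := h1.2
    rw [← h3] at h4
    exact (bal_ins _ _ _).1 h4
  · intro p hp
    refine Prod.ext rfl ?_
    funext i
    change ins p.1 j (-p.1) p.2 (j.succAbove i).succ = p.2 i
    rw [ins_succ, Fin.insertNth_apply_succAbove]
  · intro m hm
    rw [mem_filter] at hm
    funext i
    refine Fin.cases rfl (fun i => ?_) i
    rw [ins_succ]
    rcases Fin.eq_self_or_eq_succAbove j i with h | ⟨l, h⟩
    · rw [h, Fin.insertNth_apply_same, hm.2]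
    · rw [h, Fin.insertNth_apply_succAbove]
  · intro p hp
    rfl

/-- the number of the later entries `- m 0` -/
def mu {k : ℕ} (m : Fin (k + 2) → ℤ) : ℕ := ∑ j : Fin (k + 1), if m j.succ = -m 0 then 1 else 0

theorem mu_ins {k : ℕ} (v : ℤ) (j : Fin (k + 1)) (m : Fin k → ℤ) :
    mu (ins v j (-v) m) = 1 + (univ.filter fun i => m i = -v).card := by
  unfold mu
  rw [Fin.sum_univ_succAbove _ j, ins_succ, ins_zero, Fin.insertNth_apply_same, if_pos rfl, cnt_eq]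
  congr 1
  refine Finset.sum_congr rfl fun i _ => ?_
  rw [ins_succ, Fin.insertNth_apply_succAbove]

theorem one_le_mu {k X : ℕ} {m : Fin (k + 2) → ℤ} (hm : m ∈ BT (k + 2) X) : 1 ≤ mu m := by
  rw [mem_BT] at hm
  obtain ⟨h1, h2⟩ := hm
  have h0 : m 0 ≠ 0 := (mem_Bx.1 (h1 0)).1
  have h3 := h2 (m 0)
  have h4 : 0 < (univ.filter fun i => m i = m 0).card :=
    Finset.card_pos.2 ⟨0, mem_filter.2 ⟨mem_univ _, rfl⟩⟩
  rw [h3] at h4
  obtain ⟨i, hi⟩ := Finset.card_pos.1 h4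
  have hi' := (mem_filter.1 hi).2
  have hi0 : i ≠ 0 := by
    rintro rfl
    omega
  obtain ⟨j, rfl⟩ := Fin.exists_succ_eq.2 hi0
  unfold mu
  have h5 := Finset.single_le_sum (f := fun j : Fin (k + 1) => if m j.succ = -m 0 then 1 else 0)
    (fun _ _ => Nat.zero_le _) (mem_univ j)
  simp only [hi', if_true] at h5
  exact h5

theorem sum_mu (k X : ℕ) (F : (Fin (k + 2) → ℤ) → ℂ) :
    ∑ m ∈ BT (k + 2) X, (mu m : ℂ) * F m =
      ∑ j : Fin (k + 1), ∑ p ∈ Bx X ×ˢ BT k X, F (ins p.1 j (-p.1) p.2) := by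
  have h1 : ∀ j : Fin (k + 1), ∑ p ∈ Bx X ×ˢ BT k X, F (ins p.1 j (-p.1) p.2) =
      ∑ m ∈ BT (k + 2) X, if m j.succ = -m 0 then F m else 0 := by
    intro j
    rw [← sum_pair, Finset.sum_filter]
  simp_rw [h1]
  rw [Finset.sum_comm]
  refine Finset.sum_congr rfl fun m _ => ?_
  unfold mu
  push_cast
  rw [Finset.sum_mul]
  refine Finset.sum_congr rfl fun j _ => ?_
  split_ifs <;> simp

theorem sum_mu_real (k X : ℕ) (F : (Fin (k + 2) → ℤ) → ℝ) :
    ∑ m ∈ BT (k + 2) X, (mu m : ℝ) * F m =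
      ∑ j : Fin (k + 1), ∑ p ∈ Bx X ×ˢ BT k X, F (ins p.1 j (-p.1) p.2) := by
  have h1 : ∀ j : Fin (k + 1), ∑ p ∈ Bx X ×ˢ BT k X, F (ins p.1 j (-p.1) p.2) =
      ∑ m ∈ BT (k + 2) X, if m j.succ = -m 0 then F m else 0 := by
    intro j
    rw [← sum_pair, Finset.sum_filter]
  simp_rw [h1]
  rw [Finset.sum_comm]
  refine Finset.sum_congr rfl fun m _ => ?_
  unfold mu
  push_cast
  rw [Finset.sum_mul]
  refine Finset.sum_congr rfl fun j _ => ?_
  split_ifs <;> simp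

/-- the sum of the absolute values -/
noncomputable def AB (k X : ℕ) (β : ℤ → ℂ) : ℝ := ∑ m ∈ BT k X, ∏ j, ‖β (m j)‖

/-- the variance -/
noncomputable def VV (X : ℕ) (β : ℤ → ℂ) : ℝ := ∑ m ∈ Bx X, ‖β m‖ ^ 2

theorem VV_nonneg (X : ℕ) (β : ℤ → ℂ) : 0 ≤ VV X β := Finset.sum_nonneg fun _ _ => sq_nonneg _

theorem AB_nonneg (k X : ℕ) (β : ℤ → ℂ) : 0 ≤ AB k X β :=
  Finset.sum_nonneg fun _ _ => Finset.prod_nonneg fun _ _ => norm_nonneg _

theorem balZ_zero (m : Fin 0 → ℤ) : BalZ m := by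
  intro v
  simp

theorem BT_zero (X : ℕ) : BT 0 X = univ := by
  ext m
  rw [mem_BT]
  simp only [mem_univ, iff_true]
  exact ⟨fun i => i.elim0, balZ_zero m⟩

theorem BT_one (X : ℕ) : BT 1 X = ∅ := by
  rw [Finset.eq_empty_iff_forall_notMem]
  intro m hm
  rw [mem_BT] at hm
  obtain ⟨h1, h2⟩ := hm
  have h0 : m 0 ≠ 0 := (mem_Bx.1 (h1 0)).1
  have h3 := h2 (m 0)
  have h4 : (univ.filter fun i : Fin 1 => m i = -m 0) = ∅ := by
    rw [Finset.filter_eq_empty_iff]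
    intro i _
    rw [Subsingleton.elim i 0]
    omega
  rw [h4, Finset.card_empty, Finset.card_eq_zero, Finset.filter_eq_empty_iff] at h3
  exact h3 (mem_univ 0) rfl

variable {X : ℕ} {β : ℤ → ℂ} (hβ : ∀ m, β (-m) = (starRingEnd ℂ) (β m))

include hβ

theorem nrm (v : ℤ) : ‖β (-v)‖ = ‖β v‖ := by
  rw [hβ, RCLike.norm_conj]

theorem sum_mu_AB (k : ℕ) :
    ∑ m ∈ BT (k + 2) X, (mu m : ℝ) * ∏ i, ‖β (m i)‖ = (k + 1) * (VV X β * AB k X β) := by
  rw [sum_mu_real k X (fun m => ∏ i, ‖β (m i)‖)]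
  have h1 : ∀ j : Fin (k + 1), ∑ p ∈ Bx X ×ˢ BT k X, ∏ i, ‖β (ins p.1 j (-p.1) p.2 i)‖ =
      VV X β * AB k X β := by
    intro j
    unfold VV AB
    rw [Finset.sum_mul_sum, Finset.sum_product]
    refine Finset.sum_congr rfl fun v _ => Finset.sum_congr rfl fun m _ => ?_
    change ∏ i, ‖β (ins v j (-v) m i)‖ = _
    rw [prod_ins v j (-v) m (fun x => ‖β x‖), nrm hβ]
    ring
  rw [Finset.sum_congr rfl fun j _ => h1 j, Finset.sum_const, Finset.card_univ, Fintype.card_fin,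
    nsmul_eq_mul]
  push_cast
  ring

theorem sum_mu_DB (k : ℕ) :
    ∑ m ∈ BT (k + 2) X, (mu m : ℂ) * ∏ i, β (m i) =
      ((k + 1 : ℝ) * VV X β : ℝ) * DB k X (fun _ => β) := by
  rw [sum_mu k X (fun m => ∏ i, β (m i))]
  have h1 : ∀ j : Fin (k + 1), ∑ p ∈ Bx X ×ˢ BT k X, ∏ i, β (ins p.1 j (-p.1) p.2 i) =
      (VV X β : ℂ) * DB k X (fun _ => β) := by
    intro j
    unfold VV DB
    push_cast
    rw [Finset.sum_mul_sum, Finset.sum_product]
    refine Finset.sum_congr rfl fun v _ => Finset.sum_congr rfl fun m _ => ?_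
    change ∏ i, β (ins v j (-v) m i) = _
    rw [prod_ins v j (-v) m β, hβ, ← mul_assoc, Complex.mul_conj, Complex.normSq_eq_norm_sq]
    push_cast
    rfl
  rw [Finset.sum_congr rfl fun j _ => h1 j, Finset.sum_const, Finset.card_univ, Fintype.card_fin,
    nsmul_eq_mul]
  push_cast
  ring

theorem AB_le (k : ℕ) : AB k X β ≤ gm k * √(VV X β) ^ k := by
  have hV : √(VV X β) ^ 2 = VV X β := Real.sq_sqrt (VV_nonneg X β)
  induction k using Nat.twoStepInduction with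
  | zero =>
    unfold AB
    rw [BT_zero, gm_zero]
    simp
  | one =>
    unfold AB
    rw [BT_one, gm_one]
    simp
  | more k ih _ =>
    have h1 : AB (k + 2) X β ≤ ∑ m ∈ BT (k + 2) X, (mu m : ℝ) * ∏ i, ‖β (m i)‖ := by
      unfold AB
      refine Finset.sum_le_sum fun m hm => ?_
      have h2 : (1 : ℝ) ≤ mu m := by exact_mod_cast one_le_mu hm
      exact le_mul_of_one_le_left (Finset.prod_nonneg fun _ _ => norm_nonneg _) h2
    rw [sum_mu_AB hβ k] at h1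
    refine h1.trans ?_
    rw [gm_add_two, pow_add, hV]
    push_cast
    have h3 : VV X β * AB k X β ≤ VV X β * (gm k * √(VV X β) ^ k) :=
      mul_le_mul_of_nonneg_left ih (VV_nonneg X β)
    have h4 := mul_le_mul_of_nonneg_left h3 (by positivity : (0 : ℝ) ≤ (k : ℝ) + 1)
    refine h4.trans (le_of_eq ?_)
    ring

theorem DB_step (k : ℕ) {σ : ℝ} (hσ : ∀ m, ‖β m‖ ^ 2 ≤ σ) :
    ‖DB (k + 2) X (fun _ => β) - ((k + 1 : ℝ) * VV X β : ℝ) * DB k X (fun _ => β)‖ ≤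
      (k + 1) * (k * σ * AB k X β) := by
  rw [← sum_mu_DB hβ k]
  have h0 : DB (k + 2) X (fun _ => β) = ∑ m ∈ BT (k + 2) X, ∏ i, β (m i) := rfl
  rw [h0, ← Finset.sum_sub_distrib]
  have h1 : ∀ m ∈ BT (k + 2) X, ‖∏ i, β (m i) - (mu m : ℂ) * ∏ i, β (m i)‖ ≤
      (mu m : ℝ) * (((mu m : ℝ) - 1) * ∏ i, ‖β (m i)‖) := by
    intro m hm
    have h2 : (1 : ℝ) ≤ mu m := by exact_mod_cast one_le_mu hm
    have h3 : ∏ i, β (m i) - (mu m : ℂ) * ∏ i, β (m i) = -((((mu m : ℝ) - 1 : ℝ) : ℂ) * ∏ i, β (m i)) := by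
      push_cast
      ring
    rw [h3, norm_neg, norm_mul, norm_prod, Complex.norm_real, Real.norm_of_nonneg (by linarith)]
    have h4 : 0 ≤ ((mu m : ℝ) - 1) * ∏ i, ‖β (m i)‖ :=
      mul_nonneg (by linarith) (Finset.prod_nonneg fun _ _ => norm_nonneg _)
    exact le_mul_of_one_le_left h4 h2
  refine (norm_sum_le_of_le _ h1).trans ?_
  rw [sum_mu_real k X (fun m => ((mu m : ℝ) - 1) * ∏ i, ‖β (m i)‖)]
  have h5 : ∀ j : Fin (k + 1), ∑ p ∈ Bx X ×ˢ BT k X,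
      ((mu (ins p.1 j (-p.1) p.2) : ℝ) - 1) * ∏ i, ‖β (ins p.1 j (-p.1) p.2 i)‖ ≤
      k * σ * AB k X β := by
    intro j
    rw [Finset.sum_product_right]
    unfold AB
    rw [Finset.mul_sum]
    refine Finset.sum_le_sum fun m hm => ?_
    have h6 : ∀ v ∈ Bx X, ((mu (ins v j (-v) m) : ℝ) - 1) * ∏ i, ‖β (ins v j (-v) m i)‖ =
        (∑ i, if m i = -v then ‖β v‖ ^ 2 else 0) * ∏ i, ‖β (m i)‖ := by
      intro v _
      rw [mu_ins, prod_ins v j (-v) m (fun x => ‖β x‖), nrm hβ, cnt_eq]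
      push_cast
      have h7 : (∑ i, if m i = -v then ‖β v‖ ^ 2 else 0) =
          (∑ i, if m i = -v then (1 : ℝ) else 0) * ‖β v‖ ^ 2 := by
        rw [Finset.sum_mul]
        refine Finset.sum_congr rfl fun i _ => ?_
        split_ifs <;> simp
      rw [h7]
      ring
    have h6' : ∑ v ∈ Bx X, ((mu (ins (v, m).1 j (-(v, m).1) (v, m).2) : ℝ) - 1) *
        ∏ i, ‖β (ins (v, m).1 j (-(v, m).1) (v, m).2 i)‖ =
        ∑ v ∈ Bx X, (∑ i, if m i = -v then ‖β v‖ ^ 2 else 0) * ∏ i, ‖β (m i)‖ :=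
      Finset.sum_congr rfl h6
    rw [h6', ← Finset.sum_mul]
    refine mul_le_mul_of_nonneg_right ?_ (Finset.prod_nonneg fun _ _ => norm_nonneg _)
    rw [Finset.sum_comm]
    have h8 : ∀ i : Fin k, ∑ v ∈ Bx X, (if m i = -v then ‖β v‖ ^ 2 else 0) ≤ σ := by
      intro i
      have h9 : ∀ v ∈ Bx X, (if m i = -v then ‖β v‖ ^ 2 else 0) =
          if v = -m i then ‖β v‖ ^ 2 else 0 := by
        intro v _
        by_cases h : m i = -v
        · rw [if_pos h, if_pos (by omega)]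
        · rw [if_neg h, if_neg (by omega)]
      rw [Finset.sum_congr rfl h9, Finset.sum_ite_eq']
      split_ifs
      · exact hσ _
      · exact (sq_nonneg _).trans (hσ 0)
    calc ∑ i : Fin k, ∑ v ∈ Bx X, (if m i = -v then ‖β v‖ ^ 2 else 0)
        ≤ ∑ _i : Fin k, σ := Finset.sum_le_sum fun i _ => h8 i
      _ = k * σ := by
        rw [Finset.sum_const, Finset.card_univ, Fintype.card_fin, nsmul_eq_mul]
  calc ∑ j : Fin (k + 1), ∑ p ∈ Bx X ×ˢ BT k X,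
        ((mu (ins p.1 j (-p.1) p.2) : ℝ) - 1) * ∏ i, ‖β (ins p.1 j (-p.1) p.2 i)‖
      ≤ ∑ _j : Fin (k + 1), k * σ * AB k X β := Finset.sum_le_sum fun j _ => h5 j
    _ = (k + 1) * (k * σ * AB k X β) := by
      rw [Finset.sum_const, Finset.card_univ, Fintype.card_fin, nsmul_eq_mul]
      push_cast
      ring

omit hβ

theorem main_bal (k : ℕ) : ∃ C : ℝ, 0 ≤ C ∧ ∀ (X : ℕ) (β : ℤ → ℂ) (σ : ℝ),
    (∀ m, β (-m) = (starRingEnd ℂ) (β m)) → (∀ m, ‖β m‖ ^ 2 ≤ σ) →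
    ‖DB (k + 2) X (fun _ => β) - (((gm (k + 2) : ℝ) * √(VV X β) ^ (k + 2) : ℝ) : ℂ)‖ ≤
      C * σ * √(VV X β) ^ k := by
  -- the step
  have key : ∀ (k : ℕ) (X : ℕ) (β : ℤ → ℂ) (σ : ℝ), (∀ m, β (-m) = (starRingEnd ℂ) (β m)) →
      (∀ m, ‖β m‖ ^ 2 ≤ σ) →
      ‖DB (k + 2) X (fun _ => β) - (((gm (k + 2) : ℝ) * √(VV X β) ^ (k + 2) : ℝ) : ℂ)‖ ≤
        (k + 1) * (k * σ * (gm k * √(VV X β) ^ k)) +
        (k + 1) * VV X β * ‖DB k X (fun _ => β) - (((gm k : ℝ) * √(VV X β) ^ k : ℝ) : ℂ)‖ := by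
    intro k X β σ hβ hσ
    have hσ0 : 0 ≤ σ := (sq_nonneg _).trans (hσ 0)
    have hV0 := VV_nonneg X β
    have hV : √(VV X β) ^ 2 = VV X β := Real.sq_sqrt hV0
    have e1 : (((gm (k + 2) : ℝ) * √(VV X β) ^ (k + 2) : ℝ) : ℂ) =
        ((k + 1 : ℝ) * VV X β : ℝ) * (((gm k : ℝ) * √(VV X β) ^ k : ℝ) : ℂ) := by
      rw [← Complex.ofReal_mul]
      congr 1
      rw [gm_add_two, pow_add, hV]
      push_cast
      ring
    have e2 : DB (k + 2) X (fun _ => β) - (((gm (k + 2) : ℝ) * √(VV X β) ^ (k + 2) : ℝ) : ℂ) =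
        (DB (k + 2) X (fun _ => β) - ((k + 1 : ℝ) * VV X β : ℝ) * DB k X (fun _ => β)) +
        ((k + 1 : ℝ) * VV X β : ℝ) * (DB k X (fun _ => β) - (((gm k : ℝ) * √(VV X β) ^ k : ℝ) : ℂ)) := by
      rw [e1]
      ring
    rw [e2]
    refine (norm_add_le _ _).trans (add_le_add ?_ ?_)
    · refine (DB_step hβ k hσ).trans ?_
      have h1 := AB_le (X := X) hβ k
      gcongr
    · rw [norm_mul, Complex.norm_real, Real.norm_of_nonneg (by positivity)]
  induction k using Nat.twoStepInduction with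
  | zero =>
    refine ⟨0, le_rfl, fun X β σ hβ hσ => ?_⟩
    refine (key 0 X β σ hβ hσ).trans (le_of_eq ?_)
    have h0 : DB 0 X (fun _ => β) = 1 := by
      have : DB 0 X (fun _ => β) = ∑ m ∈ BT 0 X, ∏ i, β (m i) := rfl
      rw [this, BT_zero]
      simp
    rw [h0, gm_zero]
    simp
  | one =>
    refine ⟨0, le_rfl, fun X β σ hβ hσ => ?_⟩
    refine (key 1 X β σ hβ hσ).trans (le_of_eq ?_)
    have h0 : DB 1 X (fun _ => β) = 0 := by
      have : DB 1 X (fun _ => β) = ∑ m ∈ BT 1 X, ∏ i, β (m i) := rfl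
      rw [this, BT_one]
      simp
    rw [h0, gm_one]
    simp
  | more k ih _ =>
    obtain ⟨C, hC, h⟩ := ih
    refine ⟨((k + 2 : ℕ) + 1) * ((k + 2 : ℕ) * gm (k + 2)) + ((k + 2 : ℕ) + 1) * C, by positivity,
      fun X β σ hβ hσ => ?_⟩
    have hσ0 : 0 ≤ σ := (sq_nonneg _).trans (hσ 0)
    have hV0 := VV_nonneg X β
    have hV : √(VV X β) ^ 2 = VV X β := Real.sq_sqrt hV0
    refine (key (k + 2) X β σ hβ hσ).trans ?_
    have h1 := mul_le_mul_of_nonneg_left (h X β σ hβ hσ)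
      (by positivity : (0 : ℝ) ≤ ((k + 2 : ℕ) + 1) * VV X β)
    refine (add_le_add le_rfl h1).trans (le_of_eq ?_)
    rw [pow_add, hV]
    ring

theorem bal : S_BAL := by
  intro k
  exact main_bal k

end Pool.Agent.Q151.L2
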