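import Pool.Agent.Q255.L2.StmM
import Pool.Agent.Q163.HC.Num

/-!
# Project L2M (helper255), job HY: Hölder's inequality and hypercontractivity
-/

set_option autoImplicit false

namespace Pool.Agent.Q151.L2

open Finset MeasureTheory Filter Topology
open Pool.Agent.Q163.HC (od mom pow_omega)
open Pool.Agent.Q163.GC (ch abs_ch ch_mul meas_ch int_ch mean_ch ch_sq)

theorem mem_od {n p : ℕ} : p ∈ od n ↔ Odd (n.factorization p) := by
  unfold od
  rw [mem_filter, ← Nat.support_factorization, Finsupp.mem_support_iff]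
  constructor
  · exact fun h => h.2
  · intro h
    refine ⟨fun h0 => ?_, h⟩
    rw [h0] at h
    exact absurd h (by decide)

theorem od_sq_mul {r s : ℕ} (hr : r ≠ 0) (hs : Squarefree s) : od (r ^ 2 * s) = s.primeFactors := by
  ext p
  have h1 : (r ^ 2 * s).factorization p = 2 * r.factorization p + s.factorization p := by
    rw [Nat.factorization_mul (pow_ne_zero 2 hr) hs.ne_zero, Nat.factorization_pow]
    simp
  rw [mem_od, h1, ← Nat.support_factorization, Finsupp.mem_support_iff]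
  have h2 := Squarefree.natFactorization_le_one p hs
  constructor
  · intro h h0
    rw [h0, add_zero] at h
    exact absurd (even_two_mul _) (Nat.not_even_iff_odd.2 h)
  · intro h
    have h3 : s.factorization p = 1 := by omega
    rw [h3]
    exact odd_two_mul_add_one _

theorem sq_mul_inj {r s r' s' : ℕ} (hr : r ≠ 0) (hr' : r' ≠ 0) (hs : Squarefree s) (hs' : Squarefree s')
    (h : r ^ 2 * s = r' ^ 2 * s') : s = s' ∧ r = r' := by
  have h1 : s.primeFactors = s'.primeFactors := by rw [← od_sq_mul hr hs, h, od_sq_mul hr' hs']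
  have h2 : s = s' := by
    rw [← Nat.prod_primeFactors_of_squarefree hs, ← Nat.prod_primeFactors_of_squarefree hs', h1]
  subst h2
  refine ⟨rfl, ?_⟩
  have h3 := Nat.eq_of_mul_eq_mul_right (Nat.pos_of_ne_zero hs.ne_zero) h
  exact Nat.pow_left_injective (by norm_num : (2 : ℕ) ≠ 0) h3

theorem sum_sq_mul {X : ℕ} (g : ℕ → ℝ) (hg : ∀ n, X < n → g n = 0) :
    ∑ n ∈ Icc 1 X, g n = ∑ s ∈ (Icc 1 X).filter Squarefree, ∑ r ∈ Icc 1 X, g (r ^ 2 * s) := by
  rw [← Finset.sum_product' ((Icc 1 X).filter Squarefree) (Icc 1 X) (fun s r => g (r ^ 2 * s))]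
  have h1 : ∑ q ∈ ((Icc 1 X).filter Squarefree) ×ˢ Icc 1 X, g (q.2 ^ 2 * q.1) =
      ∑ q ∈ (((Icc 1 X).filter Squarefree) ×ˢ Icc 1 X).filter (fun q => q.2 ^ 2 * q.1 ≤ X),
        g (q.2 ^ 2 * q.1) := by
    symm
    refine Finset.sum_filter_of_ne fun q _ h => ?_
    by_contra h2
    exact h (hg _ (by omega))
  rw [h1]
  symm
  refine Finset.sum_nbij (fun q => q.2 ^ 2 * q.1) ?_ ?_ ?_ ?_
  · intro q hq
    rw [mem_filter, mem_product, mem_filter, mem_Icc, mem_Icc] at hq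
    rw [mem_Icc]
    refine ⟨?_, hq.2⟩
    have h2 : 0 < q.2 ^ 2 * q.1 := Nat.mul_pos (pow_pos (by omega) 2) (by omega)
    omega
  · rintro ⟨s, r⟩ hq ⟨s', r'⟩ hq' h
    rw [mem_coe, mem_filter, mem_product, mem_filter, mem_Icc, mem_Icc] at hq hq'
    have h2 := sq_mul_inj (by have := hq.1.2.1; omega) (by have := hq'.1.2.1; omega) hq.1.1.2 hq'.1.1.2 h
    exact Prod.ext h2.1 h2.2
  · intro n hn
    rw [mem_coe, mem_Icc] at hn
    obtain ⟨s, r, h2, h3⟩ := Nat.sq_mul_squarefree n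
    have hn0 : 0 < n := by omega
    have hr : 1 ≤ r := by
      rcases Nat.eq_zero_or_pos r with h | h
      · subst h
        simp at h2
        omega
      · exact h
    have hs : 1 ≤ s := Nat.pos_of_ne_zero h3.ne_zero
    have h4 : s ≤ n := by
      rw [← h2]
      exact Nat.le_mul_of_pos_left _ (pow_pos hr 2)
    have h5 : r ≤ n := by
      calc r ≤ r ^ 2 := Nat.le_self_pow (by norm_num) r
        _ ≤ r ^ 2 * s := Nat.le_mul_of_pos_right _ hs
        _ = n := h2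
    refine ⟨(s, r), ?_, h2⟩
    rw [mem_coe, mem_filter, mem_product, mem_filter, mem_Icc, mem_Icc]
    change ((((1 ≤ s ∧ s ≤ X) ∧ Squarefree s) ∧ 1 ≤ r ∧ r ≤ X)) ∧ r ^ 2 * s ≤ X
    refine ⟨⟨⟨⟨hs, by omega⟩, h3⟩, hr, by omega⟩, by omega⟩
  · intro q _
    rfl

theorem ch_sq_mul (ω : ℕ → Bool) {r s : ℕ} (hr : r ≠ 0) (hs : s ≠ 0) : ch ω (r ^ 2 * s) = ch ω s := by
  rw [ch_mul ω (pow_ne_zero 2 hr) hs, sq, ch_mul ω hr hr, ← sq, ch_sq, one_mul]

theorem mom_nn (k : ℕ) (hk : 1 ≤ k) (ε : ℝ) (hε : 0 < ε) : ∃ B : ℝ, 1 ≤ B ∧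
    ∀ (X : ℕ) (w : ℕ → ℝ) (η : ℝ), 1 ≤ X → (∀ n, 0 ≤ w n) → (∀ n, X < n → w n = 0) → 0 < η →
    ∫ ω, (∑ n ∈ Icc 1 X, w n * ch ω n) ^ (2 * k) ∂Pool.Agent.Q163.RX.cm ≤
      (B * (X : ℝ) ^ ε * Pool.Agent.Q255.L2.nn X w + η) ^ k := by
  have hkR : (1 : ℝ) ≤ k := by exact_mod_cast hk
  obtain ⟨B, hB, h⟩ := pow_omega (2 * k - 1) (by linarith) ε hε
  refine ⟨B, hB, fun X w η hX hw hw0 hη => ?_⟩
  have e1 : ∀ ω, ∑ n ∈ Icc 1 X, w n * ch ω n =
      ∑ s ∈ (Icc 1 X).filter Squarefree, (∑ r ∈ Icc 1 X, |w (r ^ 2 * s)|) * ch ω (id s) := by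
    intro ω
    rw [sum_sq_mul (fun n => w n * ch ω n) (fun n hn => by rw [hw0 n hn, zero_mul])]
    refine Finset.sum_congr rfl fun s hs => ?_
    rw [mem_filter, mem_Icc] at hs
    rw [Finset.sum_mul]
    refine Finset.sum_congr rfl fun r hr => ?_
    rw [mem_Icc] at hr
    rw [ch_sq_mul ω (by omega) (by omega), abs_of_nonneg (hw _), id]
  simp_rw [e1]
  refine mom k hk ((Icc 1 X).filter Squarefree) (fun s => ∑ r ∈ Icc 1 X, |w (r ^ 2 * s)|) id
    (B * (X : ℝ) ^ ε) ?_ 1 ?_ _ ?_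
  · intro s hs
    rw [mem_filter, mem_Icc] at hs
    have h1 : od s ⊆ s.primeFactors := filter_subset _ _
    refine (h s hs.1.1 (od s) h1).trans ?_
    have h2 : (s : ℝ) ^ ε ≤ (X : ℝ) ^ ε :=
      Real.rpow_le_rpow (Nat.cast_nonneg _) (by exact_mod_cast hs.1.2) hε.le
    exact mul_le_mul_of_nonneg_left h2 (by linarith)
  · intro U
    rw [card_le_one]
    intro a ha b hb
    rw [mem_filter, mem_filter, mem_Icc] at ha hb
    have h1 : ∀ s : ℕ, Squarefree s → od s = s.primeFactors := by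
      intro s hs
      have := od_sq_mul one_ne_zero hs
      rwa [one_pow, one_mul] at this
    have h2 : a.primeFactors = b.primeFactors := by
      rw [← h1 a ha.1.2, ← h1 b hb.1.2]
      exact ha.2.trans hb.2.symm
    rw [← Nat.prod_primeFactors_of_squarefree ha.1.2, ← Nat.prod_primeFactors_of_squarefree hb.1.2, h2]
  · rw [Nat.cast_one, one_mul]
    have h1 : Pool.Agent.Q255.L2.nn X w =
        ∑ s ∈ (Icc 1 X).filter Squarefree, (∑ r ∈ Icc 1 X, |w (r ^ 2 * s)|) ^ 2 := rfl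
    rw [h1]
    linarith

theorem ch_one (ω : ℕ → Bool) : ch ω 1 = 1 := by
  have h := ch_mul ω one_ne_zero one_ne_zero
  rw [one_mul] at h
  have h1 := ch_sq ω 1
  rw [sq] at h1
  linarith

theorem ch_prod {ι : Type} (ω : ℕ → Bool) (S : Finset ι) (t : ι → ℕ) (h : ∀ i ∈ S, t i ≠ 0) :
    ch ω (∏ i ∈ S, t i) = ∏ i ∈ S, ch ω (t i) := by
  classical
  induction S using Finset.induction_on with
  | empty => rw [prod_empty, prod_empty, ch_one]
  | insert a S ha ih =>
    rw [prod_insert ha, prod_insert ha, ch_mul ω (h a (mem_insert_self _ _))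
      (Finset.prod_ne_zero_iff.2 fun i hi => h i (mem_insert_of_mem hi)),
      ih fun i hi => h i (mem_insert_of_mem hi)]

theorem mean_sq {n : ℕ} (hn : n ≠ 0) (h : IsSquare n) : ∫ ω, ch ω n ∂Pool.Agent.Q163.RX.cm = 1 := by
  obtain ⟨r, rfl⟩ := h
  have hr : r ≠ 0 := fun h => hn (by rw [h])
  have h1 : ∀ ω, ch ω (r * r) = 1 := fun ω => by rw [ch_mul ω hr hr, ← sq, ch_sq]
  simp_rw [h1]
  simp

theorem mean_prod {ι : Type} [Fintype ι] [DecidableEq ι] (X : ℕ) (w : ι → ℕ → ℝ) :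
    ∫ ω, ∏ i, (∑ n ∈ Icc 1 X, w i n * ch ω n) ∂Pool.Agent.Q163.RX.cm =
      ∑ t ∈ (Fintype.piFinset fun _ : ι => Icc 1 X).filter (fun t => IsSquare (∏ i, t i)),
        ∏ i, w i (t i) := by
  classical
  have e1 : ∀ ω, ∏ i, (∑ n ∈ Icc 1 X, w i n * ch ω n) =
      ∑ t ∈ Fintype.piFinset fun _ : ι => Icc 1 X, (∏ i, w i (t i)) * ch ω (∏ i, t i) := by
    intro ω
    rw [Finset.prod_univ_sum]
    refine Finset.sum_congr rfl fun t ht => ?_
    rw [Fintype.mem_piFinset] at ht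
    rw [ch_prod ω univ t (fun i _ => by have := (mem_Icc.1 (ht i)).1; omega), Finset.prod_mul_distrib]
  simp_rw [e1]
  rw [integral_finsetSum _ fun t _ => (int_ch _).const_mul _, Finset.sum_filter]
  refine Finset.sum_congr rfl fun t ht => ?_
  rw [Fintype.mem_piFinset] at ht
  have h0 : ∏ i, t i ≠ 0 :=
    Finset.prod_ne_zero_iff.2 fun i _ => by have := (mem_Icc.1 (ht i)).1; omega
  rw [integral_const_mul]
  split_ifs with h
  · rw [mean_sq h0 h, mul_one]
  · rw [mean_ch h0 h, mul_zero]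

theorem prod_le_sum {ι : Type} [Fintype ι] (hι : 1 ≤ Fintype.card ι) (g : ι → ℝ) :
    ∏ i, g i ≤ ∑ i, (1 + g i ^ (2 * Fintype.card ι)) := by
  classical
  have hne : (univ : Finset ι).Nonempty := by
    rw [← Finset.card_pos, Finset.card_univ]
    omega
  obtain ⟨j, _, hj⟩ := Finset.exists_max_image univ (fun i => |g i|) hne
  have h1 : ∏ i, g i ≤ |g j| ^ Fintype.card ι := by
    refine (le_abs_self _).trans ?_
    rw [Finset.abs_prod]
    refine (Finset.prod_le_prod (fun i _ => abs_nonneg _) fun i hi => hj i hi).trans ?_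
    rw [Finset.prod_const, Finset.card_univ]
  have h2 : |g j| ^ Fintype.card ι ≤ 1 + g j ^ (2 * Fintype.card ι) := by
    have h3 : g j ^ (2 * Fintype.card ι) = (|g j| ^ Fintype.card ι) ^ 2 := by
      rw [← pow_mul, mul_comm (Fintype.card ι) 2, pow_mul, pow_mul, sq_abs]
    rw [h3]
    nlinarith [sq_nonneg (|g j| ^ Fintype.card ι - 1), sq_nonneg (|g j| ^ Fintype.card ι)]
  refine h1.trans (h2.trans ?_)
  refine Finset.single_le_sum (f := fun i => 1 + g i ^ (2 * Fintype.card ι)) (fun i _ => ?_)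
    (mem_univ j)
  have : 0 ≤ g i ^ (2 * Fintype.card ι) := by
    rw [pow_mul]
    exact pow_nonneg (sq_nonneg _) _
  linarith

theorem bdd_F (X : ℕ) (w : ℕ → ℝ) (ω : ℕ → Bool) :
    |∑ n ∈ Icc 1 X, w n * ch ω n| ≤ ∑ n ∈ Icc 1 X, |w n| := by
  refine (Finset.abs_sum_le_sum_abs _ _).trans (le_of_eq (Finset.sum_congr rfl fun n _ => ?_))
  rw [abs_mul, abs_ch, mul_one]

theorem meas_F (X : ℕ) (w : ℕ → ℝ) : Measurable fun ω => ∑ n ∈ Icc 1 X, w n * ch ω n :=
  Finset.measurable_fun_sum _ fun n _ => (meas_ch n).const_mul _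

theorem hold {ι : Type} [Fintype ι] [DecidableEq ι] (hι : 1 ≤ Fintype.card ι) (X : ℕ) (w : ι → ℕ → ℝ)
    (M : ι → ℝ) (hM : ∀ i, 0 < M i)
    (h : ∀ i, ∫ ω, (∑ n ∈ Icc 1 X, w i n * ch ω n) ^ (2 * Fintype.card ι) ∂Pool.Agent.Q163.RX.cm ≤
      M i ^ Fintype.card ι) :
    ∫ ω, ∏ i, (∑ n ∈ Icc 1 X, w i n * ch ω n) ∂Pool.Agent.Q163.RX.cm ≤
      2 * Fintype.card ι * ∏ i, √(M i) := by
  have hs : ∀ i, 0 < √(M i) := fun i => Real.sqrt_pos.2 (hM i)
  have e1 : ∀ ω, ∏ i, (∑ n ∈ Icc 1 X, w i n * ch ω n) =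
      (∏ i, √(M i)) * ∏ i, ((∑ n ∈ Icc 1 X, w i n * ch ω n) / √(M i)) := by
    intro ω
    rw [← Finset.prod_mul_distrib]
    refine Finset.prod_congr rfl fun i _ => ?_
    rw [mul_div_cancel₀ _ (hs i).ne']
  simp_rw [e1]
  rw [integral_const_mul, mul_comm]
  refine mul_le_mul_of_nonneg_right ?_ (Finset.prod_nonneg fun i _ => (hs i).le)
  have hint : ∀ i, Integrable (fun ω => ((∑ n ∈ Icc 1 X, w i n * ch ω n) / √(M i)) ^
      (2 * Fintype.card ι)) Pool.Agent.Q163.RX.cm := by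
    intro i
    refine Integrable.of_bound (((meas_F X (w i)).div_const _).pow_const _).aestronglyMeasurable
      (((∑ n ∈ Icc 1 X, |w i n|) / √(M i)) ^ (2 * Fintype.card ι)) (Eventually.of_forall fun ω => ?_)
    rw [norm_pow, Real.norm_eq_abs, abs_div, abs_of_pos (hs i)]
    exact pow_le_pow_left₀ (by positivity) (div_le_div_of_nonneg_right (bdd_F X (w i) ω) (hs i).le) _
  have hint2 : Integrable (fun ω => ∏ i, ((∑ n ∈ Icc 1 X, w i n * ch ω n) / √(M i)))
      Pool.Agent.Q163.RX.cm := by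
    refine Integrable.of_bound (Finset.measurable_fun_prod _ fun i _ =>
      (meas_F X (w i)).div_const _).aestronglyMeasurable
      (∏ i, ((∑ n ∈ Icc 1 X, |w i n|) / √(M i))) (Eventually.of_forall fun ω => ?_)
    rw [Real.norm_eq_abs, Finset.abs_prod]
    refine Finset.prod_le_prod (fun _ _ => abs_nonneg _) fun i _ => ?_
    rw [abs_div, abs_of_pos (hs i)]
    exact div_le_div_of_nonneg_right (bdd_F X (w i) ω) (hs i).le
  have hint3 : ∀ i, Integrable (fun ω => 1 + ((∑ n ∈ Icc 1 X, w i n * ch ω n) / √(M i)) ^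
      (2 * Fintype.card ι)) Pool.Agent.Q163.RX.cm := fun i => (integrable_const (1 : ℝ)).add (hint i)
  calc ∫ ω, ∏ i, ((∑ n ∈ Icc 1 X, w i n * ch ω n) / √(M i)) ∂Pool.Agent.Q163.RX.cm
      ≤ ∫ ω, ∑ i, (1 + ((∑ n ∈ Icc 1 X, w i n * ch ω n) / √(M i)) ^ (2 * Fintype.card ι))
          ∂Pool.Agent.Q163.RX.cm := by
        refine integral_mono hint2 (integrable_finsetSum _ fun i _ => hint3 i)
          fun ω => ?_
        exact prod_le_sum hι _
    _ = ∑ i, (1 + ∫ ω, ((∑ n ∈ Icc 1 X, w i n * ch ω n) / √(M i)) ^ (2 * Fintype.card ι)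
          ∂Pool.Agent.Q163.RX.cm) := by
        rw [integral_finsetSum _ fun i _ => hint3 i]
        refine Finset.sum_congr rfl fun i _ => ?_
        rw [integral_add (integrable_const (1 : ℝ)) (hint i)]
        simp
    _ ≤ ∑ _i : ι, (2 : ℝ) := by
        refine Finset.sum_le_sum fun i _ => ?_
        have h1 : ∫ ω, ((∑ n ∈ Icc 1 X, w i n * ch ω n) / √(M i)) ^ (2 * Fintype.card ι)
          ∂Pool.Agent.Q163.RX.cm ≤ 1 := by
          simp_rw [div_pow]
          rw [integral_div]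
          have h2 : √(M i) ^ (2 * Fintype.card ι) = M i ^ Fintype.card ι := by
            rw [pow_mul, Real.sq_sqrt (hM i).le]
          rw [h2, div_le_one (pow_pos (hM i) _)]
          exact h i
        linarith
    _ = 2 * Fintype.card ι := by
        rw [Finset.sum_const, Finset.card_univ, nsmul_eq_mul]
        ring

theorem hy : Pool.Agent.Q255.L2.S_HY := by
  intro ι _ _ ε hε
  rcases Nat.eq_zero_or_pos (Fintype.card ι) with hι | hι
  · have : IsEmpty ι := Fintype.card_eq_zero_iff.1 hι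
    refine ⟨1, zero_le_one, fun X w hX _ _ => ?_⟩
    have hX1 : (1 : ℝ) ≤ (X : ℝ) ^ ε := Real.one_le_rpow (by exact_mod_cast hX) hε.le
    have h1 : ∑ t ∈ (Fintype.piFinset fun _ : ι => Icc 1 X).filter (fun t => IsSquare (∏ i, t i)),
        ∏ i, w i (t i) ≤ 1 := by
      have h2 : ∀ t ∈ (Fintype.piFinset fun _ : ι => Icc 1 X).filter (fun t => IsSquare (∏ i, t i)),
          ∏ i, w i (t i) = 1 := fun t _ => by simp
      rw [Finset.sum_congr rfl h2, Finset.sum_const, nsmul_eq_mul, mul_one]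
      have h3 : ((Fintype.piFinset fun _ : ι => Icc 1 X).filter
          (fun t => IsSquare (∏ i, t i))).card ≤ 1 := by
        refine (Finset.card_le_one_of_subsingleton _)
      exact_mod_cast h3
    refine h1.trans ?_
    rw [one_mul]
    simpa using hX1
  · have hιR : (0 : ℝ) < Fintype.card ι := by exact_mod_cast hι
    obtain ⟨B, hB, hmom⟩ := mom_nn (Fintype.card ι) hι (2 * ε / Fintype.card ι) (by positivity)
    refine ⟨2 * Fintype.card ι * √B ^ Fintype.card ι, by positivity, fun X w hX hw hw0 => ?_⟩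
    have hXR : (1 : ℝ) ≤ X := by exact_mod_cast hX
    have hX0 : (0 : ℝ) ≤ X := by linarith
    have key : ∀ η : ℝ, 0 < η →
        ∑ t ∈ (Fintype.piFinset fun _ : ι => Icc 1 X).filter (fun t => IsSquare (∏ i, t i)),
          ∏ i, w i (t i) ≤ 2 * Fintype.card ι * ∏ i, √(B * (X : ℝ) ^ (2 * ε / Fintype.card ι) *
            Pool.Agent.Q255.L2.nn X (w i) + η) := by
      intro η hη
      rw [← mean_prod X w]
      have hnn : ∀ i, 0 ≤ Pool.Agent.Q255.L2.nn X (w i) := fun i =>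
        Finset.sum_nonneg fun _ _ => sq_nonneg _
      refine hold hι X w _ (fun i => ?_) fun i => hmom X (w i) η hX (hw i) (hw0 i) hη
      have h1 := hnn i
      positivity
    have hlim : Tendsto (fun η : ℝ => 2 * Fintype.card ι * ∏ i, √(B * (X : ℝ) ^ (2 * ε / Fintype.card ι) *
            Pool.Agent.Q255.L2.nn X (w i) + η)) (𝓝[>] 0)
        (𝓝 (2 * Fintype.card ι * ∏ i, √(B * (X : ℝ) ^ (2 * ε / Fintype.card ι) *
            Pool.Agent.Q255.L2.nn X (w i) + 0))) := by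
      have hc : Continuous (fun η : ℝ => 2 * (Fintype.card ι : ℝ) *
          ∏ i, √(B * (X : ℝ) ^ (2 * ε / Fintype.card ι) *
            Pool.Agent.Q255.L2.nn X (w i) + η)) := by
        fun_prop
      exact (hc.tendsto 0).mono_left nhdsWithin_le_nhds
    have h1 := ge_of_tendsto hlim (eventually_nhdsWithin_of_forall fun η hη => key η hη)
    refine h1.trans (le_of_eq ?_)
    have h2 : ∀ i, √(B * (X : ℝ) ^ (2 * ε / Fintype.card ι) * Pool.Agent.Q255.L2.nn X (w i) + 0) =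
        √B * (X : ℝ) ^ (ε / Fintype.card ι) * √(Pool.Agent.Q255.L2.nn X (w i)) := by
      intro i
      rw [add_zero, Real.sqrt_mul (by positivity), Real.sqrt_mul (by linarith)]
      congr 2
      rw [Real.sqrt_eq_rpow, ← Real.rpow_mul hX0]
      congr 1
      ring
    rw [Finset.prod_congr rfl fun i _ => h2 i, Finset.prod_mul_distrib, Finset.prod_const,
      Finset.card_univ, mul_pow, ← Real.rpow_natCast ((X : ℝ) ^ (ε / Fintype.card ι)),
      ← Real.rpow_mul hX0, div_mul_cancel₀ _ hιR.ne']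
    ring

end Pool.Agent.Q151.L2
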